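import Mathlib

namespace Pool.Agent.H.Enflo

open Finset Filter Topology

abbrev T := ℕ × Finset ℕ × Fin 3

def u0 : Fin 3 → ℝ := ![1, -1, 0]
def u1 : Fin 3 → ℝ := ![1, 1, -2]

def z (m : ℕ) (v : Finset ℕ) (t : T) : ℝ :=
  (if t.1 = m ∧ t.2.1 = v then 1 else 0) + (if t.1 + 1 = m ∧ t.2.1 = v then u0 t.2.2 else 0) +
    (if t.1 + 1 = m ∧ insert t.1 t.2.1 = v then u1 t.2.2 else 0)

noncomputable def ka (n : ℕ) : ℝ := if n = 0 then 0 else 1 / 3

noncomputable def Y (t : T) : T → ℝ :=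
  (u0 t.2.2 / 4) • z (t.1 + 1) t.2.1 + (u1 t.2.2 / 12) • z (t.1 + 1) (insert t.1 t.2.1) -
    ka t.1 • z t.1 t.2.1

def P (n : ℕ) : Finset (Finset ℕ) := (range n).powerset

theorem nm {n : ℕ} {w : Finset ℕ} (h : w ∈ P n) : n ∉ w := fun k => by
  simpa using mem_powerset.1 h k

theorem ub (l : Fin 3) : |u0 l| ≤ 2 ∧ |u1 l| ≤ 2 := by
  fin_cases l <;> simp [u0, u1]

theorem zb (m v t) : |z m v t| ≤ 5 := by
  obtain ⟨a, b⟩ := ub t.2.2
  unfold z
  rw [abs_le] at *
  split_ifs <;> constructor <;> linarith [a.1, a.2, b.1, b.2]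

theorem Yb (t s) : |Y t s| ≤ 6 := by
  obtain ⟨a, b⟩ := ub t.2.2
  have c : |ka t.1| ≤ 1 / 3 := by unfold ka; split_ifs <;> norm_num
  have h : ∀ x m v c, |x| ≤ c → |x * z m v s| ≤ c * 5 := fun x m v c h => by
    rw [abs_mul]; exact mul_le_mul h (zb _ _ _) (abs_nonneg _) ((abs_nonneg _).trans h)
  have h1 := h (u0 t.2.2 / 4) (t.1 + 1) t.2.1 (1 / 2) (by rw [abs_div]; norm_num; linarith)
  have h2 := h (u1 t.2.2 / 12) (t.1 + 1) (insert t.1 t.2.1) (1 / 6)
    (by rw [abs_div]; norm_num; linarith)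
  have h3 := h _ t.1 t.2.1 _ c
  simp only [Y, Pi.sub_apply, Pi.add_apply, Pi.smul_apply, smul_eq_mul]
  rw [abs_le] at *
  constructor <;> linarith [h1.1, h1.2, h2.1, h2.2, h3.1, h3.2]

theorem Yd {n w} (h : w ∈ P n) (l : Fin 3) : Y (n, w, l) (n, w, l) = 1 / 3 - ka n := by
  have h1 : insert n w ≠ w := fun k => nm h (k ▸ mem_insert_self n w)
  simp only [Y, z, Pi.sub_apply, Pi.add_apply, Pi.smul_apply, smul_eq_mul]
  fin_cases l <;> simp [u0, u1, h1, h1.symm] <;> norm_num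

theorem Yn {n w l n' w' l'} (hw : w ∈ P n) (hw' : w' ∈ P n') (h : Y (n, w, l) (n', w', l') ≠ 0) :
    (n' = n + 1 ∨ n' + 1 = n ∨ (n' = n ∧ (l' ≠ l ∨ n = 0))) ∧
      ∀ i, i + 1 < n → (i ∈ w ↔ i ∈ w') := by
  have k : ∀ m v, z m v (n', w', l') ≠ 0 → (n' = m ∧ w' = v) ∨ (n' + 1 = m ∧ w' = v) ∨
      (n' + 1 = m ∧ insert n' w' = v) := fun m v h => by
    by_contra hc
    apply h
    simp only [z]
    rw [if_neg (fun a => hc (Or.inl a)), if_neg (fun a => hc (Or.inr (Or.inl a))),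
      if_neg (fun a => hc (Or.inr (Or.inr a)))]
    simp
  have k2 : z (n + 1) w (n', w', l') ≠ 0 ∨ z (n + 1) (insert n w) (n', w', l') ≠ 0 ∨
      z n w (n', w', l') ≠ 0 := by
    by_contra hc
    push Not at hc
    apply h
    simp [Y, hc.1, hc.2.1, hc.2.2]
  have k3 : (n' = n + 1 ∨ n' + 1 = n ∨ n' = n) ∧ (∀ i, i + 1 < n → (i ∈ w ↔ i ∈ w')) ∧
      (n' = n → n ∉ w' → w' = w) := by
    have e1 : ∀ i, i + 1 < n → i ≠ n := fun i hi => by omega
    rcases k2 with a | a | a <;> rcases k _ _ a with ⟨b, c⟩ | ⟨b, c⟩ | ⟨b, c⟩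
    · exact ⟨Or.inl b, fun i _ => by rw [c], fun _ _ => c⟩
    · exact ⟨by omega, fun i _ => by rw [c], fun _ _ => c⟩
    · obtain rfl : n' = n := by omega
      exact absurd (c ▸ mem_insert_self n' w') (nm hw)
    · exact ⟨Or.inl b, fun i hi => by simp [c, e1 i hi], fun _ => by omega⟩
    · exact ⟨by omega, fun i hi => by simp [c, e1 i hi], fun _ d => absurd (by simp [c]) d⟩
    · obtain rfl : n' = n := by omega
      refine ⟨by omega, fun i hi => ?_, fun _ d => ?_⟩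
      · have := Finset.ext_iff.1 c i
        simpa [e1 i hi] using this.symm
      · rw [← erase_insert d, c, erase_insert (nm hw)]
    · exact ⟨by omega, fun i _ => by rw [c], fun _ _ => c⟩
    · exact ⟨by omega, fun i _ => by rw [c], fun _ _ => c⟩
    · refine ⟨by omega, fun i hi => ?_, fun _ => by omega⟩
      have : i ≠ n' := by omega
      simp [← c, this]
  refine ⟨?_, k3.2.1⟩
  rcases k3.1 with a | a | a
  · exact Or.inl a
  · exact Or.inr (Or.inl a)
  · refine Or.inr (Or.inr ⟨a, ?_⟩)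
    subst a
    by_contra hc
    push Not at hc
    obtain ⟨rfl, h0⟩ := hc
    rw [k3.2.2 rfl (nm hw'), Yd hw, ka, if_neg h0] at h
    simp at h

theorem L1 (ψ : (T → ℝ) →ₗ[ℝ] ℝ) {m v} (hv : v ∈ P m) (n : ℕ) :
    ∑ l, ∑ w ∈ P n, z m v (n, w, l) * ψ (Y (n, w, l)) =
      (if n + 1 = m then 1 / 2 else if n = m ∧ n ≠ 0 then -1 else 0) * ψ (z m v) := by
  rw [sum_comm]
  by_cases h1 : n + 1 = m
  · subst h1
    rw [if_pos rfl, sum_eq_single_of_mem (v.erase n)]
    · by_cases d : n ∈ v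
      · have : v.erase n ≠ v := by simpa using d
        simp [z, Y, Fin.sum_univ_three, u0, u1, insert_erase d, this]
        ring
      · have : insert n v ≠ v := by simpa using d
        simp [z, Y, Fin.sum_univ_three, u0, u1, erase_eq_of_notMem d, this]
        ring
    · refine mem_powerset.2 fun i hi => ?_
      have := mem_powerset.1 hv (mem_of_mem_erase hi)
      have := ne_of_mem_erase hi
      simp only [mem_range] at *
      omega
    · intro w hw h
      have a : w ≠ v := fun k => h (by rw [← k, erase_eq_of_notMem (nm hw)])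
      have b : insert n w ≠ v := fun k => h (by rw [← k, erase_insert (nm hw)])
      simp [z, a, b]
  · rw [if_neg h1]
    by_cases h2 : n = m
    · subst h2
      rw [sum_eq_single_of_mem v hv]
      · by_cases d : n = 0 <;> simp [z, Y, Fin.sum_univ_three, u0, u1, ka, d] <;> ring
      · intro w _ h
        simp [z, h]
    · simp [z, h1, h2]

def S (n : ℕ) (l : Fin 3) : Finset ℕ := (range (n / 6 - 1)).image fun m => 6 * m + 3 * (n % 2) + l

def sg (θ : Finset (Finset ℕ)) (w : Finset ℕ) : ℝ := if w ∈ θ then -1 else 1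

abbrev J := ℕ × Σ _ : Fin 3, Finset ℕ × Finset (Finset ℕ)

def B (k : J) : Finset (Finset ℕ) := (P k.1).filter fun w => w \ S k.1 k.2.1 = k.2.2.1

def K (n : ℕ) : Finset (Σ _ : Fin 3, Finset ℕ × Finset (Finset ℕ)) :=
  univ.sigma fun l => (range n \ S n l).powerset ×ˢ (P n).powerset

theorem ort {Q : Finset (Finset ℕ)} {w v} (hw : w ∈ Q) :
    ∑ θ ∈ Q.powerset, sg θ w * sg θ v = if w = v then 2 ^ Q.card else 0 := by
  split_ifs with h
  · subst h
    have : ∀ θ, sg θ w * sg θ w = 1 := fun θ => by unfold sg; split_ifs <;> norm_num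
    simp [this]
  · have : ∀ θ : Finset (Finset ℕ), sg θ w * sg θ v =
        ∏ x ∈ θ, ((if x = w then -1 else 1) * if x = v then -1 else 1) := fun θ => by
      rw [prod_mul_distrib, prod_ite_eq', prod_ite_eq']; rfl
    simp only [this]
    rw [← prod_one_add]
    exact prod_eq_zero hw (by simp [h])

theorem L2 (n : ℕ) (M : Fin 3 → Finset ℕ → Finset ℕ → ℝ) :
    ∑ k ∈ K n, ∑ w ∈ B (n, k), ∑ v ∈ B (n, k), sg k.2.2 w * sg k.2.2 v * M k.1 w v =
      2 ^ 2 ^ n * ∑ l, ∑ w ∈ P n, M l w w := by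
  rw [K, sum_sigma, mul_sum]
  refine sum_congr rfl fun l _ => ?_
  rw [sum_product, ← sum_fiberwise_of_maps_to (s := P n) (t := (range n \ S n l).powerset)
    (g := fun w => w \ S n l) (fun w hw => mem_powerset.2
      (sdiff_subset_sdiff (mem_powerset.1 hw) subset_rfl)), mul_sum]
  refine sum_congr rfl fun b _ => ?_
  simp only [B]
  rw [sum_comm, mul_sum]
  refine sum_congr rfl fun w hw => ?_
  rw [sum_comm]
  simp only [← sum_mul, ort (mem_filter.1 hw).1, ite_mul, zero_mul]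
  rw [sum_ite_eq, if_pos hw]
  simp [P]

noncomputable def ph (k : J) : (T → ℝ) →ₗ[ℝ] ℝ :=
  ∑ w ∈ B k, sg k.2.2.2 w • LinearMap.proj (k.1, w, k.2.1)

noncomputable def yy (k : J) : T → ℝ := ∑ w ∈ B k, sg k.2.2.2 w • Y (k.1, w, k.2.1)

theorem phe (k x) : ph k x = ∑ w ∈ B k, sg k.2.2.2 w * x (k.1, w, k.2.1) := by
  simp [ph]

theorem one {α : Type} (s : Finset α) (f : α → ℝ) {C : ℝ} (h0 : 0 ≤ C) (h : ∀ p, |f p| ≤ C)
    (u : ∀ p ∈ s, ∀ q ∈ s, f p ≠ 0 → f q ≠ 0 → p = q) : |∑ p ∈ s, f p| ≤ C := by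
  by_cases k : ∃ p ∈ s, f p ≠ 0
  · obtain ⟨p, p1, p2⟩ := k
    rw [sum_eq_single_of_mem p p1 fun q q1 q2 => by_contra fun a => q2 (u q q1 p p1 a p2)]
    exact h p
  · push Not at k
    simpa [sum_eq_zero k] using h0

theorem ab (j k : J) : |ph j (yy k)| ≤ 6 := by
  obtain ⟨n', l', b', θ'⟩ := j
  obtain ⟨n, l, b, θ⟩ := k
  have s1 : ∀ θ w, |sg θ w| = 1 := fun θ w => by unfold sg; split_ifs <;> simp
  simp only [phe, yy, Finset.sum_apply, Pi.smul_apply, smul_eq_mul, mul_sum]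
  rw [← sum_product']
  refine one _ _ (by norm_num) (fun p => by simpa [abs_mul, s1] using Yb _ _) ?_
  rintro ⟨v1, w1⟩ h1 ⟨v2, w2⟩ h2 k1 k2
  simp only [mem_product, B, mem_filter] at h1 h2
  obtain ⟨a1, a2⟩ := Yn h1.2.1 h1.1.1 (right_ne_zero_of_mul (right_ne_zero_of_mul k1))
  obtain ⟨-, a3⟩ := Yn h2.2.1 h2.1.1 (right_ne_zero_of_mul (right_ne_zero_of_mul k2))
  have e1 : ∀ i, i ∈ v1 ∧ i ∉ S n' l' ↔ i ∈ v2 ∧ i ∉ S n' l' := fun i => by
    simpa using Finset.ext_iff.1 (h1.1.2.trans h2.1.2.symm) i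
  have e2 : ∀ i, i ∈ w1 ∧ i ∉ S n l ↔ i ∈ w2 ∧ i ∉ S n l := fun i => by
    simpa using Finset.ext_iff.1 (h1.2.2.trans h2.2.2.symm) i
  have d : ∀ i, ¬ (i ∈ S n l ∧ i ∈ S n' l') ∧ (i ∈ S n l ∨ i ∈ S n' l' → i + 1 < n) := by
    intro i
    have := l.2
    have := l'.2
    have : l' ≠ l ↔ (l' : ℕ) ≠ l := Fin.val_ne_iff.symm
    simp only [S, mem_image, mem_range]
    refine ⟨?_, ?_⟩
    · rintro ⟨⟨m, m1, m2⟩, r, r1, r2⟩
      omega
    · rintro (⟨m, m1, m2⟩ | ⟨m, m1, m2⟩) <;> omega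
  have a2' : ∀ i, i + 1 < n → (i ∈ w1 ↔ i ∈ v1) := a2
  have a3' : ∀ i, i + 1 < n → (i ∈ w2 ↔ i ∈ v2) := a3
  refine Prod.ext (Finset.ext fun i => ?_) (Finset.ext fun i => ?_)
  · show i ∈ v1 ↔ i ∈ v2
    by_cases q : i ∈ S n' l'
    · have q1 := (d i).2 (Or.inr q)
      have q2 : i ∉ S n l := fun k => (d i).1 ⟨k, q⟩
      rw [← a2' i q1, ← a3' i q1]
      simpa [q2] using e2 i
    · simpa [q] using e1 i
  · show i ∈ w1 ↔ i ∈ w2
    by_cases q : i ∈ S n l
    · have q1 := (d i).2 (Or.inl q)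
      have q2 : i ∉ S n' l' := fun k => (d i).1 ⟨q, k⟩
      rw [a2' i q1, a3' i q1]
      simpa [q2] using e1 i
    · simpa [q] using e2 i

noncomputable def c (k : J) : ℝ := if k.2 ∈ K k.1 then (1 / 2) ^ k.1 / 2 ^ 2 ^ k.1 else 0

theorem c0 (k : J) : 0 ≤ c k := by unfold c; split_ifs <;> positivity

theorem lv (f : J → ℝ) (n : ℕ) :
    HasSum (fun k => c (n, k) * f (n, k)) ((1 / 2) ^ n / 2 ^ 2 ^ n * ∑ k ∈ K n, f (n, k)) := by
  rw [mul_sum, ← sum_congr rfl (fun k hk => by simp only [c]; rw [if_pos hk] :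
    ∀ k ∈ K n, c (n, k) * f (n, k) = (1 / 2) ^ n / 2 ^ 2 ^ n * f (n, k))]
  exact hasSum_sum_of_ne_finset_zero fun k hk => by simp [c, hk]

theorem cs : Summable c := by
  have h : ∀ n, HasSum (fun k => c (n, k)) (3 * (1 / 2) ^ (n / 6 - 1)) := fun n => by
    have a := lv (fun _ => 1) n
    simp only [mul_one] at a
    convert a using 1
    have b : ∀ l, (range n \ S n l).card + (n / 6 - 1) = n := fun l => by
      have b1 : (S n l).card = n / 6 - 1 := by
        rw [S, card_image_of_injective _ fun x y h => by omega, card_range]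
      have b2 : S n l ⊆ range n := fun i hi => by
        have := l.2
        simp only [S, mem_image, mem_range] at *
        obtain ⟨m, m1, m2⟩ := hi
        omega
      rw [← b1, card_sdiff_add_card_eq_card b2, card_range]
    have d : ∀ l, (2 : ℝ) ^ (range n \ S n l).card = 2 ^ n * (1 / 2) ^ (n / 6 - 1) := fun l => by
      conv_rhs => rw [← b l, pow_add, b l]
      rw [mul_assoc, ← mul_pow]; simp
    simp [K, P, d]
    field_simp
  refine (summable_prod_of_nonneg c0).2 ⟨fun n => (h n).summable, ?_⟩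
  simp only [fun n => (h n).tsum_eq]
  refine Summable.of_nonneg_of_le (fun n => by positivity) (fun n => ?_)
    ((summable_geometric_of_lt_one (r := 9 / 10) (by norm_num) (by norm_num)).mul_left 12)
  have a : ((9 : ℝ) / 10) ^ (6 * (n / 6 - 1 + 2)) ≤ (9 / 10) ^ n :=
    pow_le_pow_of_le_one (by norm_num) (by norm_num) (by omega)
  have b : ((1 : ℝ) / 2) ^ (n / 6 - 1 + 2) ≤ (9 / 10) ^ (6 * (n / 6 - 1 + 2)) := by
    rw [pow_mul]; exact pow_le_pow_left₀ (by norm_num) (by norm_num) _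
  rw [pow_add] at b
  linarith

theorem ts (f : J → ℝ) {C : ℝ} (hf : ∀ k, |f k| ≤ C) :
    ∑' k, c k * f k = ∑' n, (1 / 2) ^ n / 2 ^ 2 ^ n * ∑ k ∈ K n, f (n, k) := by
  rw [Summable.tsum_prod]
  · exact tsum_congr fun n => (lv f n).tsum_eq
  · refine Summable.of_norm_bounded (cs.mul_right C) fun k => ?_
    rw [norm_mul, Real.norm_of_nonneg (c0 k)]
    exact mul_le_mul_of_nonneg_left (hf k) (c0 k)

theorem tr : ∑' k, c k * ph k (yy k) = 1 := by
  rw [ts _ fun k => ab k k, tsum_eq_single 0]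
  all_goals
    have h := fun n => L2 n fun l w v => Y (n, v, l) (n, w, l)
    have h' : ∀ n, ∑ k ∈ K n, ph (n, k) (yy (n, k)) = 2 ^ 2 ^ n * (3 * (2 ^ n * (1 / 3 - ka n))) :=
      fun n => by
        simp only [phe, yy, Finset.sum_apply, Pi.smul_apply, smul_eq_mul, mul_sum, ← mul_assoc]
        rw [h n, sum_congr rfl fun l _ => sum_congr rfl fun w hw => Yd hw l]
        simp [P]
        ring
  · rw [h']; simp [ka]
  · intro n hn
    rw [h']; simp [ka, hn]

theorem sq (j m : J) : ∑' k, c k * (ph j (yy k) * ph k (yy m)) = 0 := by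
  rw [ts (C := 36) _ fun k => by
    rw [abs_mul]; nlinarith [ab j k, ab k m, abs_nonneg (ph j (yy k)), abs_nonneg (ph k (yy m))]]
  obtain ⟨D, hD⟩ : ∃ D : ℕ → (T → ℝ) →ₗ[ℝ] ℝ, ∀ n x,
      D n x = (1 / 2) ^ n * ∑ l, ∑ w ∈ P n, x (n, w, l) * ph j (Y (n, w, l)) :=
    ⟨fun n => ((1 : ℝ) / 2) ^ n • ∑ l, ∑ w ∈ P n, ph j (Y (n, w, l)) • LinearMap.proj (n, w, l),
      fun n x => by simp [mul_comm]⟩
  have h1 : ∀ n, (1 / 2) ^ n / 2 ^ 2 ^ n * ∑ k ∈ K n, ph j (yy (n, k)) * ph (n, k) (yy m) =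
      D n (yy m) := fun n => by
    have := L2 n fun l w v => yy m (n, w, l) * ph j (Y (n, v, l))
    rw [hD, div_eq_mul_inv, mul_assoc, ← (inv_mul_eq_iff_eq_mul₀ (by positivity)).2 this]
    congr 2
    refine sum_congr rfl fun k _ => ?_
    rw [phe (n, k), mul_comm, yy.eq_def (n, k), map_sum, sum_mul_sum]
    refine sum_congr rfl fun w _ => sum_congr rfl fun v _ => ?_
    simp only [map_smul, smul_eq_mul]
    ring
  have h2 : ∀ r v, v ∈ P r → HasSum (fun n => D n (z r v)) 0 := fun r v hv => by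
    simp only [hD, L1 _ hv]
    rcases r with _ | r
    · simpa using hasSum_zero
    · have := (hasSum_ite_eq r ((1 / 2) ^ (r + 1) * ph j (z (r + 1) v))).sub
        (hasSum_ite_eq (r + 1) ((1 / 2) ^ (r + 1) * ph j (z (r + 1) v)))
      rw [sub_self] at this
      refine (congrArg (HasSum · (0 : ℝ)) (funext fun n => ?_)).mpr this
      by_cases a : n = r
      · subst a; simp; ring
      · by_cases b : n = r + 1
        · subst b; simp
        · simp [a, b]
  simp only [h1]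
  simp only [yy, map_sum]
  refine HasSum.tsum_eq ?_
  have := hasSum_sum (s := B m) (f := fun w n => D n (sg m.2.2.2 w • Y (m.1, w, m.2.1)))
    (a := fun _ => 0) fun w hw => by
      have hw := (mem_filter.1 hw).1
      have a : w ∈ P (m.1 + 1) :=
        mem_powerset.2 ((mem_powerset.1 hw).trans (range_subset_range.2 (by omega)))
      have b : insert m.1 w ∈ P (m.1 + 1) := by
        rw [P, range_add_one]
        exact mem_powerset.2 (insert_subset_insert _ (mem_powerset.1 hw))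
      simpa [Y] using ((((h2 _ _ a).mul_left (u0 m.2.1 / 4)).add
        ((h2 _ _ b).mul_left (u1 m.2.1 / 12))).sub ((h2 _ _ hw).mul_left (ka m.1))).mul_left
        (sg m.2.2.2 w)
  simpa using this

theorem dini (c : ℕ → ℝ) (h0 : ∀ k, 0 ≤ c k) (h : Summable c) : ∃ g : ℕ → ℝ, (∀ k, 0 < g k) ∧
    Tendsto g atTop (𝓝 0) ∧ Summable fun k => c k / g k := by
  obtain ⟨d, d0, d1, d2⟩ : ∃ d : ℕ → ℝ, (∀ k, 0 < d k) ∧ (∀ k, c k ≤ d k) ∧ Summable d :=
    ⟨fun k => c k + (1 / 2) ^ k, fun k => by have := h0 k; positivity,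
      fun k => le_add_of_nonneg_right (by positivity), h.add summable_geometric_two⟩
  obtain ⟨r, hr⟩ : ∃ r : ℕ → ℝ, ∀ k, r k = ∑' i, d (i + k) := ⟨_, fun _ => rfl⟩
  have r1 : ∀ k, r k = d k + r (k + 1) := fun k => by
    rw [hr, hr, ((summable_nat_add_iff k).2 d2).tsum_eq_zero_add, zero_add]
    simp only [add_assoc, add_comm 1 k]
  have r2 : ∀ k, 0 ≤ r k := fun k => by rw [hr]; exact tsum_nonneg fun i => (d0 _).le
  have r3 : ∀ k, 0 < √(r k) := fun k => Real.sqrt_pos.2 (by linarith [r1 k, d0 k, r2 (k + 1)])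
  refine ⟨fun k => √(r k), r3, ?_, ?_⟩
  · have := (Real.continuous_sqrt.tendsto 0).comp (tendsto_sum_nat_add d)
    rw [Real.sqrt_zero] at this
    exact this.congr fun k => by simp [hr]
  · refine summable_of_sum_range_le (c := 2 * √(r 0)) (fun k => div_nonneg (h0 k) (r3 k).le)
      fun n => ?_
    have : ∀ k, c k / √(r k) ≤ 2 * √(r k) - 2 * √(r (k + 1)) := fun k => by
      rw [div_le_iff₀ (r3 k)]
      nlinarith [Real.mul_self_sqrt (r2 k), Real.mul_self_sqrt (r2 (k + 1)), r1 k, d1 k,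
        sq_nonneg (√(r k) - √(r (k + 1)))]
    refine (sum_le_sum fun k _ => this k).trans ?_
    rw [sum_range_sub' (fun k => 2 * √(r k))]
    linarith [r3 n]

theorem core : ∃ (a : ℕ → ℕ → ℝ) (c g : ℕ → ℝ), (∀ k, 0 ≤ c k) ∧ Summable c ∧
    Tendsto g atTop (𝓝 0) ∧ (∀ k, 0 ≤ g k ∧ g k ≤ 1) ∧ (∀ j k, |a j k| ≤ g j * g k) ∧
    ∑' k, c k * a k k = 1 ∧ ∀ j m, ∑' k, c k * (a j k * a k m) = 0 := by
  obtain ⟨e⟩ : Nonempty (ℕ ≃ J) := nonempty_equiv_of_countable
  obtain ⟨g, g0, g1, g2⟩ := dini (fun k => c (e k)) (fun k => c0 _) (cs.comp_injective e.injective)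
  obtain ⟨M, hM⟩ := g1.bddAbove_range
  have M1 : ∀ k, g k ≤ M := fun k => hM ⟨k, rfl⟩
  have M0 : 0 < M := (g0 0).trans_le (M1 0)
  have q : ∀ k, √(g k / M) * √(g k / M) = g k / M := fun k =>
    Real.mul_self_sqrt (div_pos (g0 k) M0).le
  refine ⟨fun j k => √(g j / M) * √(g k / M) * (ph (e j) (yy (e k)) / 6),
    fun k => 6 * M * (c (e k) / g k), fun k => √(g k / M), fun k => ?_, g2.mul_left _, ?_,
    fun k => ⟨Real.sqrt_nonneg _, Real.sqrt_le_one.2 ((div_le_one M0).2 (M1 k))⟩, fun j k => ?_, ?_,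
    fun j m => ?_⟩
  · have := c0 (e k); have := g0 k; positivity
  · simpa [Function.comp_def] using (Real.continuous_sqrt.tendsto _).comp (g1.div_const M)
  · rw [abs_mul, abs_of_nonneg (by positivity)]
    refine mul_le_of_le_one_right (by positivity) ?_
    rw [abs_div, div_le_one (by norm_num)]
    simpa using ab _ _
  · rw [← tr, ← e.tsum_eq]
    refine tsum_congr fun k => ?_
    have := (g0 k).ne'
    simp only [q]
    field_simp
  · have := sq (e j) (e m)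
    rw [← e.tsum_eq] at this
    rw [← mul_zero (√(g j / M) * √(g m / M) / 6), ← this, ← tsum_mul_left]
    refine tsum_congr fun k => ?_
    have := (g0 k).ne'
    rw [show ∀ x y : ℝ, √(g j / M) * √(g k / M) * x * (√(g k / M) * √(g m / M) * y) =
      √(g j / M) * √(g m / M) * (√(g k / M) * √(g k / M)) * x * y from fun x y => by ring, q]
    field_simp

end Pool.Agent.H.Enflo
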