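import Pool.Agent.H.Enflo.A
import Pool.Agent.H.MP_11e589.A

namespace Pool.Agent.H.Enflo

open Filter Topology Set
open scoped OnePoint
open OnePoint (continuousMapMkNat continuous_iff_from_nat)

theorem nuc {V U : Type} [NormedAddCommGroup V] [NormedSpace ℝ V] [NormedAddCommGroup U]
    [NormedSpace ℝ U] [CompleteSpace U] (f : ℕ → V →L[ℝ] ℝ) (y : ℕ → U)
    (hs : Summable fun k => ‖f k‖ * ‖y k‖) :
    ∃ A : V →L[ℝ] U, ∀ x, HasSum (fun k => f k x • y k) (A x) := by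
  obtain ⟨A, hA⟩ : Summable fun k => (f k).smulRight (y k) :=
    Summable.of_norm (by simpa using hs)
  exact ⟨A, fun x => by simpa using hA.mapL (ContinuousLinearMap.apply ℝ _ x)⟩

structure Wit (Z : Type) [NormedAddCommGroup Z] [NormedSpace ℝ Z] (φ : ℕ → Z →L[ℝ] ℝ) (y : ℕ → Z)
    (c : ℕ → ℝ) : Prop where
  c0 : ∀ k, 0 ≤ c k
  cs : Summable c
  y0 : Tendsto y atTop (𝓝 0)
  y1 : ∀ k, ‖y k‖ ≤ 1
  f1 : ∀ j x, |φ j x| ≤ ‖x‖
  f2 : ∀ x C, (∀ j, |φ j x| ≤ C) → ‖x‖ ≤ C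
  f0 : ∀ x, Tendsto (fun j => φ j x) atTop (𝓝 0)
  tr : ∑' k, c k * φ k (y k) = 1
  sq : ∀ x, HasSum (fun k => (c k * φ k x) • y k) 0
  wk : ∀ (f : Z →L[ℝ] ℝ) (v : ℕ → Z) (M δ : ℝ), (∀ n, ‖v n‖ ≤ M) →
    (∀ j, Tendsto (fun n => φ j (v n)) atTop (𝓝 0)) → 0 < δ → ∃ n, f (v n) < δ

theorem spc : ∃ (Z : Type) (_ : NormedAddCommGroup Z) (_ : NormedSpace ℝ Z) (_ : CompleteSpace Z)
    (φ : ℕ → Z →L[ℝ] ℝ) (y : ℕ → Z) (c : ℕ → ℝ), Wit Z φ y c := by
  obtain ⟨a, c, g, c0, cs, g0, g1, ab, tr, sq⟩ := core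
  have a0 : ∀ k, Tendsto (fun j => a j k) atTop (𝓝 0) := fun k =>
    squeeze_zero_norm (fun j => ab j k) (by simpa using g0.mul_const (g k))
  let y : ℕ → C(OnePoint ℕ, ℝ) := fun k => continuousMapMkNat (fun j => a j k) 0 (a0 k)
  have yn : ∀ k, ‖y k‖ ≤ g k := fun k => (ContinuousMap.norm_le _ (g1 k).1).2 fun j => by
    rcases j with _ | j
    · exact (norm_zero (E := ℝ)).trans_le (g1 k).1
    · exact (ab j k).trans (mul_le_of_le_one_left (g1 k).1 (g1 j).2)
  let Z := (Submodule.span ℝ (range y)).topologicalClosure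
  have hZ : ∀ {V : Type} [NormedAddCommGroup V] [NormedSpace ℝ V] (A : C(OnePoint ℕ, ℝ) →L[ℝ] V),
      (∀ k, A (y k) = 0) → ∀ x : Z, A x = 0 := fun A h x =>
    Submodule.topologicalClosure_minimal _ (t := LinearMap.ker A.toLinearMap)
      (Submodule.span_le.2 (by rintro _ ⟨k, rfl⟩; exact h k)) A.isClosed_ker x.2
  have z0 : ∀ x : Z, x.1 ∞ = 0 := hZ (ContinuousMap.evalCLM ℝ ∞) fun k => rfl
  refine ⟨Z, inferInstance, inferInstance, inferInstance,
    fun j => (ContinuousMap.evalCLM ℝ (j : OnePoint ℕ)).comp Z.subtypeL,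
    fun k => ⟨y k, Submodule.le_topologicalClosure _ (Submodule.subset_span ⟨k, rfl⟩)⟩, c, c0, cs,
    squeeze_zero_norm yn g0, fun k => (yn k).trans (g1 k).2,
    fun j x => x.1.norm_coe_le_norm j, fun x C h => ?_, fun x => ?_, tr, fun x => ?_,
    fun f v M δ h1 h2 h3 => ?_⟩
  · have C0 : 0 ≤ C := (abs_nonneg _).trans (h 0)
    refine (ContinuousMap.norm_le _ C0).2 fun j => ?_
    rcases j with _ | j
    · exact (congrArg norm (z0 x)).trans_le (by simpa using C0)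
    · exact h j
  · exact z0 x ▸ (continuous_iff_from_nat _).1 x.1.continuous
  · obtain ⟨A, e⟩ := nuc (V := C(OnePoint ℕ, ℝ)) (fun k : ℕ => c k • ContinuousMap.evalCLM ℝ (k : OnePoint ℕ)) y
      (Summable.of_nonneg_of_le (fun k => mul_nonneg (norm_nonneg _) (norm_nonneg _)) (fun k =>
        (mul_le_of_le_one_right (norm_nonneg _) ((yn k).trans (g1 k).2)).trans
          (ContinuousLinearMap.opNorm_le_bound _ (c0 k) fun x => by
            show ‖c k * x k‖ ≤ _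
            rw [norm_mul, Real.norm_of_nonneg (c0 k)]
            exact mul_le_mul_of_nonneg_left (x.norm_coe_le_norm _) (c0 k))) cs)
    have e2 := hZ A (fun m => ContinuousMap.ext fun j => by
      have := ((e (y m)).mapL (ContinuousMap.evalCLM ℝ j)).tsum_eq
      refine this.symm.trans ?_
      rcases j with _ | j
      · exact (tsum_congr fun k => mul_zero _).trans tsum_zero
      · refine (tsum_congr fun k => ?_).trans (sq j m)
        show c k * a k m * a j k = _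
        ring) x
    refine (IsInducing.subtypeVal.hasSum_iff (g := Z.subtype) _ _).1 ?_
    have := e x
    rw [e2] at this
    exact this
  · obtain ⟨C, C0, hC⟩ := ContinuousLinearMap.bound (E := Z) f
    obtain ⟨n, hn⟩ := MP_11e589.bct (Z.subtype) (C⁻¹ • f.toLinearMap) (fun x => by
      show C⁻¹ * f x ≤ ‖x‖
      rw [inv_mul_le_iff₀ C0]
      exact (le_abs_self _).trans (hC x)) v h1
      (fun k => by
        rcases k with _ | k
        · exact tendsto_const_nhds.congr fun n => (z0 _).symm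
        · exact h2 k) (δ := C⁻¹ * δ) (by positivity)
    exact ⟨n, lt_of_mul_lt_mul_left hn (by positivity)⟩

structure Lif {Z : Type} [NormedAddCommGroup Z] [NormedSpace ℝ Z] (y : ℕ → Z) (L : ℝ) (W : Type)
    [NormedAddCommGroup W] [NormedSpace ℝ W] (q : W →L[ℝ] Z) (η : ℕ → W) : Prop where
  q1 : ∀ w, ‖q w‖ ≤ ‖w‖
  qe : ∀ k, q (η k) = y k
  e1 : ∀ k, ‖η k‖ ≤ ‖y k‖
  ap : ∃ P : ℕ → W →L[ℝ] W, (∀ N, FiniteDimensional ℝ (LinearMap.range (P N).toLinearMap)) ∧
    (∀ N w, ‖P N w‖ ≤ L * ‖w‖) ∧ ∀ w, Tendsto (fun N => P N w) atTop (𝓝 w)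
  tl : ∀ M, ∃ σ : ℕ → W, (∀ k < M, ‖η k - σ k‖ ≤ L⁻¹) ∧
    ∀ b : ℕ → ℝ, ‖∑ k ∈ Finset.range M, b k • σ k‖ ≤ ‖∑ k ∈ Finset.range M, b k • y k‖
  lf : ∀ w, ‖w‖ ≤ 1 → ∃ (ι : Type) (_ : Fintype ι) (ψ : ι → W →L[ℝ] ℝ),
    ∀ h, (∀ i, ψ i h = 0) → ‖h‖ ≤ 1 / 4 → ‖w + h‖ ≤ 1

variable {Z : Type} [NormedAddCommGroup Z] [NormedSpace ℝ Z] {φ : ℕ → Z →L[ℝ] ℝ} {y : ℕ → Z}
  {c : ℕ → ℝ}

theorem lif [CompleteSpace Z] (h : Wit Z φ y c) {L : ℝ} (hL : 2 ≤ L) :
    ∃ (W : Type) (_ : NormedAddCommGroup W) (_ : NormedSpace ℝ W) (_ : CompleteSpace W)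
      (q : W →L[ℝ] Z) (η : ℕ → W), Lif y L W q η := by
  classical
  have L0 : 0 < L := by linarith
  have Li : L⁻¹ ≤ 1 / 2 := by rw [one_div]; exact inv_anti₀ two_pos hL
  obtain ⟨E, hE⟩ : ∃ E : ℕ → Submodule ℝ Z, ∀ N, E N = Submodule.span ℝ (y '' Iio N) :=
    ⟨_, fun _ => rfl⟩
  have Ef : ∀ N, FiniteDimensional ℝ (E N) := fun N =>
    hE N ▸ FiniteDimensional.span_of_finite ℝ ((finite_Iio N).image y)
  have Em : Monotone E := fun a b k => by
    rw [hE, hE]; exact Submodule.span_mono (image_mono (Iio_subset_Iio k))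
  have Ey : ∀ k N, k < N → y k ∈ E N := fun k N k1 => hE N ▸ Submodule.subset_span ⟨k, k1, rfl⟩
  let W : Submodule ℝ (C(OnePoint ℕ, Z) × Z) :=
    { carrier := {w | (∀ N : ℕ, w.1 N ∈ E N) ∧ w.2 = L • w.1 ∞}
      add_mem' := fun {a b} ha hb => ⟨fun N => add_mem (ha.1 N) (hb.1 N), by
        simp [ha.2, hb.2]⟩
      zero_mem' := ⟨fun N => zero_mem _, by simp⟩
      smul_mem' := fun r a ha => ⟨fun N => Submodule.smul_mem _ _ (ha.1 N), by
        simp [ha.2, smul_comm r L]⟩ }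
  have Wc : IsClosed (W : Set (C(OnePoint ℕ, Z) × Z)) := by
    refine IsClosed.inter (s₁ := {w : C(OnePoint ℕ, Z) × Z | ∀ N : ℕ, w.1 N ∈ E N}) ?_
      (isClosed_eq continuous_snd (by fun_prop))
    rw [ofPred_forall]
    exact isClosed_iInter fun N => (E N).closed_of_finiteDimensional.preimage (by fun_prop)
  have : CompleteSpace W := Wc.completeSpace_coe
  obtain ⟨s, s1, s2⟩ : ∃ s : ℕ → Z →ₗ[ℝ] C(OnePoint ℕ, Z) × Z,
      (∀ M z (N : ℕ), (s M z).1 N = if M ≤ N then L⁻¹ • z else 0) ∧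
      ∀ M z, (s M z).1 ∞ = L⁻¹ • z ∧ (s M z).2 = z := by
    refine ⟨fun M => ⟨⟨fun z => (continuousMapMkNat (fun N => if M ≤ N then L⁻¹ • z else 0)
      (L⁻¹ • z) (tendsto_const_nhds.congr' ((eventually_ge_atTop M).mono fun N k =>
      (if_pos k).symm)), z), fun a b => Prod.ext (ContinuousMap.ext fun j => ?_) rfl⟩,
      fun r a => Prod.ext (ContinuousMap.ext fun j => ?_) rfl⟩, fun _ _ _ => rfl,
      fun _ _ => ⟨rfl, rfl⟩⟩
    · rcases j with _ | j
      · exact smul_add _ _ _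
      · show (if M ≤ j then L⁻¹ • (a + b) else 0) =
          (if M ≤ j then L⁻¹ • a else 0) + (if M ≤ j then L⁻¹ • b else 0)
        split_ifs <;> simp
    · rcases j with _ | j
      · exact smul_comm _ _ _
      · show (if M ≤ j then L⁻¹ • r • a else 0) = r • (if M ≤ j then L⁻¹ • a else 0)
        split_ifs
        · exact smul_comm _ _ _
        · simp
  have sW : ∀ M z, z ∈ E M → s M z ∈ W := fun M z k => ⟨fun N => by
    rw [s1]
    split_ifs with a
    · exact Submodule.smul_mem _ _ (Em a k)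
    · exact zero_mem _, by rw [(s2 M z).1, (s2 M z).2, smul_smul, mul_inv_cancel₀ L0.ne', one_smul]⟩
  have nb : ∀ (w : C(OnePoint ℕ, Z) × Z) (C : ℝ), (∀ N : ℕ, ‖w.1 N‖ ≤ C) → ‖w.2‖ ≤ C → ‖w‖ ≤ C :=
    fun w C a b => norm_prod_le_iff.2 ⟨(ContinuousMap.norm_le _ ((norm_nonneg _).trans b)).2
      fun j => by
        rcases j with _ | j
        · exact le_of_tendsto' ((continuous_iff_from_nat _).1 w.1.continuous).norm a
        · exact a j, b⟩
  have ns : ∀ z : Z, ‖L⁻¹ • z‖ = L⁻¹ * ‖z‖ := fun z => by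
    rw [norm_smul, Real.norm_of_nonneg (by positivity)]
  have sn : ∀ M z, ‖s M z‖ ≤ ‖z‖ := fun M z => nb _ _ (fun N => by
    rw [s1]
    split_ifs
    · rw [ns]; nlinarith [norm_nonneg z]
    · simp) (by rw [(s2 M z).2])
  have w1 : ∀ (w : W) j, ‖w.1.1 j‖ ≤ ‖w‖ := fun w j =>
    (w.1.1.norm_coe_le_norm j).trans (norm_fst_le w.1)
  refine ⟨W, inferInstance, inferInstance, this, (ContinuousLinearMap.snd ℝ _ _).comp W.subtypeL,
    fun k => ⟨s (k + 1) (y k), sW _ _ (Ey _ _ k.lt_succ_self)⟩, fun w => norm_snd_le w.1,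
    fun k => (s2 _ _).2, fun k => sn _ _, ?_, fun M => ?_, fun w hw => ?_⟩
  · let m : ℕ → C(OnePoint ℕ, OnePoint ℕ) := fun N => continuousMapMkNat
      (fun n => ((min n N : ℕ) : OnePoint ℕ)) N (tendsto_const_nhds.congr'
        ((eventually_ge_atTop N).mono fun n k => by simp only [min_eq_right k]))
    let P : ℕ → W →ₗ[ℝ] W := fun N =>
      { toFun := fun w => ⟨(w.1.1.comp (m N), L • w.1.1 N),
          fun n => Em (min_le_left n N) (w.2.1 _), rfl⟩
        map_add' := fun a b => Subtype.ext (Prod.ext rfl (smul_add _ _ _))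
        map_smul' := fun r a => Subtype.ext (Prod.ext rfl (smul_comm _ _ _)) }
    have Pn : ∀ N w, ‖P N w‖ ≤ L * ‖w‖ := fun N w => nb _ _
      (fun n => (w1 w _).trans (by nlinarith [norm_nonneg w])) (by
        show ‖L • w.1.1 N‖ ≤ _
        rw [norm_smul, Real.norm_of_nonneg L0.le]
        exact mul_le_mul_of_nonneg_left (w1 w _) L0.le)
    refine ⟨fun N => (P N).mkContinuous L (Pn N), fun N => ?_, Pn, fun w => ?_⟩
    · let π : LinearMap.range (P N) →ₗ[ℝ] (Fin (N + 1) → E N) :=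
        { toFun := fun w i => ⟨w.1.1.1 (i : ℕ), Em (Nat.lt_succ_iff.1 i.2) (w.1.2.1 _)⟩
          map_add' := fun _ _ => rfl
          map_smul' := fun _ _ => rfl }
      refine FiniteDimensional.of_injective π (LinearMap.ker_eq_bot.1 (LinearMap.ker_eq_bot'.2 ?_))
      rintro ⟨_, w, rfl⟩ hw
      have a : ∀ n ≤ N, w.1.1 n = 0 := fun n k => by
        have : w.1.1 (min n N : ℕ) = 0 := congrArg Subtype.val (congrFun hw ⟨n, Nat.lt_succ_of_le k⟩)
        rwa [min_eq_left k] at this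
      refine Subtype.ext (Subtype.ext (Prod.ext (ContinuousMap.ext fun j => ?_) ?_))
      · rcases j with _ | j
        · exact a N le_rfl
        · exact a _ (min_le_right _ _)
      · show L • w.1.1 N = 0
        rw [a N le_rfl, smul_zero]
    · rw [Metric.tendsto_atTop]
      intro ε e0
      obtain ⟨N, hN⟩ := Metric.tendsto_atTop.1 ((continuous_iff_from_nat _).1 w.1.1.continuous)
        (ε / (2 * L)) (by positivity)
      have b : L * (ε / (2 * L)) = ε / 2 := by field_simp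
      have b0 : 0 < ε / (2 * L) := by positivity
      refine ⟨N, fun n hn => lt_of_le_of_lt (b := ε / 2) ?_ (by linarith)⟩
      rw [dist_eq_norm]
      refine nb _ _ (fun i => ?_) ?_
      · show ‖w.1.1 (min i n : ℕ) - w.1.1 i‖ ≤ _
        rcases le_total i n with k | k
        · rw [min_eq_left k, sub_self, norm_zero]; positivity
        · rw [min_eq_right k, ← dist_eq_norm]
          nlinarith [dist_triangle_right (w.1.1 n) (w.1.1 i) (w.1.1 ∞), hN n hn, hN i (hn.trans k)]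
      · show ‖L • w.1.1 n - w.1.2‖ ≤ _
        rw [w.2.2, ← smul_sub, norm_smul, Real.norm_of_nonneg L0.le, ← dist_eq_norm]
        nlinarith [hN n hn]
  · refine ⟨fun k => if a : k < M then ⟨s M (y k), sW _ _ (Ey _ _ a)⟩ else 0, fun k a => ?_,
      fun b => ?_⟩
    · dsimp only
      rw [dif_pos a]
      refine nb _ _ (fun N => ?_) ?_
      · show ‖(s (k + 1) (y k)).1 N - (s M (y k)).1 N‖ ≤ _
        have := ns (y k)
        have := h.y1 k
        have : 0 < L⁻¹ := by positivity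
        rw [s1, s1]
        split_ifs <;> simp only [sub_self, sub_zero, zero_sub, norm_neg, norm_zero] <;> nlinarith
      · show ‖(s (k + 1) (y k)).2 - (s M (y k)).2‖ ≤ _
        rw [(s2 _ _).2, (s2 _ _).2, sub_self, norm_zero]; positivity
    · refine le_trans (le_of_eq ?_) (sn M _)
      rw [← Submodule.norm_coe, map_sum, Submodule.coe_sum]
      congr 1
      refine Finset.sum_congr rfl fun k a => ?_
      dsimp only
      rw [dif_pos (Finset.mem_range.1 a), map_smul]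
      rfl
  · obtain ⟨N, hN⟩ := Metric.tendsto_atTop.1 ((continuous_iff_from_nat _).1 w.1.1.continuous)
      (1 / 4) (by norm_num)
    have fz : ∀ z : Z, ∃ J, ∀ j ≥ J, |φ j z| ≤ 3 / 4 := fun z => by
      obtain ⟨J, hJ⟩ := Metric.tendsto_atTop.1 (h.f0 z) (3 / 4) (by norm_num)
      exact ⟨J, fun j k => by simpa using (hJ j k).le⟩
    choose J hJ using fz
    have key : ∀ z v : Z, ‖z‖ ≤ 1 → ‖v‖ ≤ 1 / 4 → (∀ j < J z, φ j v = 0) → ‖z + v‖ ≤ 1 :=
      fun z v a b d => h.f2 _ _ fun j => by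
        rw [map_add]
        rcases lt_or_ge j (J z) with k | k
        · rw [d j k, add_zero]; exact (h.f1 j z).trans a
        · linarith [abs_add_le (φ j z) (φ j v), hJ z j k, h.f1 j v]
    refine ⟨(Σ n : Fin N, Fin (J (w.1.1 (n : ℕ)))) ⊕ Fin (J w.1.2), inferInstance,
      Sum.elim (fun i => (φ i.2).comp ((ContinuousMap.evalCLM ℝ ((i.1 : ℕ) : OnePoint ℕ)).comp
        ((ContinuousLinearMap.fst ℝ _ _).comp W.subtypeL)))
      fun j => (φ j).comp ((ContinuousLinearMap.snd ℝ _ _).comp W.subtypeL), fun v v1 v2 => ?_⟩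
    refine nb _ _ (fun n => ?_) (key _ _ ((norm_snd_le w.1).trans hw) ((norm_snd_le v.1).trans v2)
      fun j k => v1 (Sum.inr ⟨j, k⟩))
    show ‖w.1.1 n + v.1.1 n‖ ≤ 1
    rcases lt_or_ge n N with k | k
    · exact key _ _ ((w1 w _).trans hw) ((w1 v _).trans v2) fun j a => v1 (Sum.inl ⟨⟨n, k⟩, ⟨j, a⟩⟩)
    · have a : L * ‖w.1.1 ∞‖ ≤ 1 := by
        have := (norm_snd_le w.1).trans hw
        rwa [w.2.2, norm_smul, Real.norm_of_nonneg L0.le] at this
      have b := hN n k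
      rw [dist_eq_norm] at b
      nlinarith [norm_add_le (w.1.1 n) (v.1.1 n), w1 v n, norm_sub_norm_le (w.1.1 n) (w.1.1 ∞),
        norm_nonneg (w.1.1 ∞)]

theorem small {L : ℝ} {W : Type} [NormedAddCommGroup W] [NormedSpace ℝ W] {q : W →L[ℝ] Z}
    {η : ℕ → W} (h : Lif y L W q η) (L0 : 0 < L) {ι : Type} [Fintype ι] (ψ : ι → W →L[ℝ] ℝ)
    (β : ι → ℕ → ℝ) (hβ : ∀ i, HasSum (fun k => β i k • y k) 0) (B : ℕ → ℝ) (B0 : ∀ k, 0 ≤ B k)
    (Bs : Summable B) (hB : ∀ k w, |∑ i, β i k * ψ i w| ≤ B k * ‖w‖) {t : ℝ}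
    (ht : HasSum (fun k => ∑ i, β i k * ψ i (η k)) t) : |t| ≤ L⁻¹ * ∑' k, B k := by
  choose σ s1 s2 using h.tl
  have a : Tendsto (fun M => ∑ i, ψ i (∑ k ∈ Finset.range M, β i k • σ M k)) atTop (𝓝 0) := by
    have : ∀ i, Tendsto (fun M => ψ i (∑ k ∈ Finset.range M, β i k • σ M k)) atTop (𝓝 0) :=
      fun i => by
        have := ((ψ i).continuous.tendsto 0).comp (squeeze_zero_norm (fun M => s2 M (β i))
          (by simpa using (hβ i).tendsto_sum_nat.norm))
        rwa [map_zero] at this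
    simpa using tendsto_finsetSum Finset.univ fun i _ => this i
  have b := (ht.tendsto_sum_nat.sub a).abs
  rw [sub_zero] at b
  refine le_of_tendsto' b fun M => ?_
  have : ∑ k ∈ Finset.range M, ∑ i, β i k * ψ i (η k) -
      ∑ i, ψ i (∑ k ∈ Finset.range M, β i k • σ M k) =
      ∑ k ∈ Finset.range M, ∑ i, β i k * ψ i (η k - σ M k) := by
    simp only [map_sum, map_smul, smul_eq_mul, map_sub, mul_sub, Finset.sum_sub_distrib]
    rw [Finset.sum_comm (s := Finset.univ)]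
  rw [this]
  refine (Finset.abs_sum_le_sum_abs _ _).trans (le_trans ?_ (mul_le_mul_of_nonneg_left
    (Bs.sum_le_tsum (Finset.range M) fun k _ => B0 k) (by positivity)))
  rw [Finset.mul_sum]
  refine Finset.sum_le_sum fun k a => (hB k _).trans ?_
  rw [mul_comm]
  exact mul_le_mul_of_nonneg_right (s1 M k (Finset.mem_range.1 a)) (B0 k)

end Pool.Agent.H.Enflo
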