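import Pool.Agent.H.Enflo.B

namespace Pool.Agent.H.Enflo

open Filter Topology Set

variable {Z : Type} [NormedAddCommGroup Z] [NormedSpace ℝ Z] {φ : ℕ → Z →L[ℝ] ℝ} {y : ℕ → Z}
  {c : ℕ → ℝ}

theorem fr {U V : Type} [AddCommGroup U] [Module ℝ U] [TopologicalSpace U] [AddCommGroup V]
    [Module ℝ V] [TopologicalSpace V] [IsTopologicalAddGroup V] [ContinuousSMul ℝ V] [T2Space V]
    (R : U →L[ℝ] V) (h : FiniteDimensional ℝ (LinearMap.range R.toLinearMap)) :
    ∃ (ι : Type) (_ : Fintype ι) (ψ : ι → U →L[ℝ] ℝ) (x : ι → U), ∀ w, R w = ∑ i, ψ i w • R (x i) := by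
  let b := Module.finBasis ℝ (LinearMap.range R.toLinearMap)
  choose x hx using fun i => (b i).2
  refine ⟨_, inferInstance, fun i => (LinearMap.toContinuousLinearMap (b.coord i)).comp
    (R.codRestrict _ fun w => ⟨w, rfl⟩), x, fun w => ?_⟩
  have := congrArg Subtype.val (b.sum_repr ⟨R w, w, rfl⟩)
  rw [Submodule.coe_sum] at this
  refine this.symm.trans (Finset.sum_congr rfl fun i _ => ?_)
  rw [show R (x i) = b i from hx i]
  rfl

theorem hbs {V : Type} [AddCommGroup V] [Module ℝ V] (p : V → ℝ) (p0 : ∀ x, 0 ≤ p x)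
    (p1 : ∀ (c : ℝ) x, p (c • x) ≤ |c| * p x) (p2 : ∀ x y, p (x + y) ≤ p x + p y) (v : V) :
    ∃ Φ : V →ₗ[ℝ] ℝ, (∀ x, |Φ x| ≤ p x) ∧ Φ v = p v := by
  have h : ∀ c : ℝ, 0 < c → ∀ x, p (c • x) = c * p x := fun c c0 x => by
    refine le_antisymm (by simpa [abs_of_pos c0] using p1 c x) ?_
    have := p1 c⁻¹ (c • x)
    rwa [inv_smul_smul₀ c0.ne', abs_of_pos (inv_pos.2 c0), le_inv_mul_iff₀ c0] at this
  have z : p 0 = 0 := le_antisymm (by simpa using p1 0 0) (p0 0)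
  by_cases hv : v = 0
  · exact ⟨0, fun x => by simpa using p0 x, by simp [hv, z]⟩
  obtain ⟨g, g1, g2⟩ := exists_extension_of_le_sublinear (LinearPMap.mkSpanSingleton v (p v) hv) p
    h p2 (by
      rintro ⟨x, hx⟩
      obtain ⟨a, rfl⟩ := Submodule.mem_span_singleton.1 hx
      erw [LinearPMap.mkSpanSingleton'_apply]
      rcases lt_or_ge 0 a with k | k
      · exact (h a k v).ge
      · exact (mul_nonpos_of_nonpos_of_nonneg k (p0 v)).trans (p0 _))
  refine ⟨g, fun x => abs_le.2 ⟨?_, g2 x⟩, ?_⟩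
  · have := (g2 ((-1 : ℝ) • x)).trans (p1 _ _)
    simp only [map_smul, smul_eq_mul, abs_neg, abs_one] at this
    linarith
  · exact (g1 ⟨v, Submodule.mem_span_singleton_self v⟩).trans
      (LinearPMap.mkSpanSingleton_apply _ _ hv _)

theorem hbp {V : Type} [AddCommGroup V] [Module ℝ V] (P : V → Prop) (p : V → ℝ) (p0 : ∀ x, 0 ≤ p x)
    (P1 : ∀ (c : ℝ) x, P x → P (c • x)) (P2 : ∀ x y, P x → P y → P (x + y))
    (p1 : ∀ (c : ℝ) x, P x → p (c • x) ≤ |c| * p x)
    (p2 : ∀ x y, P x → P y → p (x + y) ≤ p x + p y) (v : V) (hv : P v) :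
    ∃ Φ : V →ₗ[ℝ] ℝ, (∀ x, P x → |Φ x| ≤ p x) ∧ Φ v = p v := by
  let W : Submodule ℝ V := ⟨⟨⟨{x | P x}, fun a b => P2 _ _ a b⟩, by simpa using P1 0 v hv⟩, P1⟩
  obtain ⟨Φ, a, b⟩ := hbs (fun x : W => p x) (fun x => p0 x) (fun c x => p1 c x x.2)
    (fun x y => p2 x y x.2 y.2) ⟨v, hv⟩
  obtain ⟨Ψ, h⟩ := Φ.exists_extend
  have : ∀ x : W, Ψ x = Φ x := LinearMap.congr_fun h
  exact ⟨Ψ, fun x k => (congrArg abs (this ⟨x, k⟩)).trans_le (a _), (this ⟨v, hv⟩).trans b⟩

theorem rng {V : Type} [NormedAddCommGroup V] [NormedSpace ℝ V] [CompleteSpace Z]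
    (T : Z →L[ℝ] V) (h : ∀ z, ‖z‖ ≤ ‖T z‖) : ∃ (X : Type) (_ : NormedAddCommGroup X)
      (_ : NormedSpace ℝ X) (_ : CompleteSpace X) (e : Z ≃L[ℝ] X), ∀ z, ‖e z‖ = ‖T z‖ := by
  have a : AntilipschitzWith 1 T := T.antilipschitz_of_bound (by simpa using h)
  refine ⟨LinearMap.range T.toLinearMap, inferInstance, inferInstance, 
    (a.isUniformInducing T.uniformContinuous).isComplete_range.completeSpace_coe,
    (LinearEquiv.ofInjective T.toLinearMap a.injective).toContinuousLinearEquivOfBounds ‖T‖ 1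
      T.le_opNorm ?_, fun z => rfl⟩
  intro x
  obtain ⟨z, rfl⟩ := (LinearEquiv.ofInjective T.toLinearMap a.injective).surjective x
  simpa using h z

theorem smo {X : Type} [NormedAddCommGroup X] [NormedSpace ℝ X]
    (h : ∀ (g : X →L[ℝ] ℝ) (a b : ℕ → X) (δ : ℝ), (∀ n, ‖a n‖ ≤ 1) → (∀ n, ‖b n‖ ≤ 1) →
      Tendsto (fun n => ‖a n + b n‖) atTop (𝓝 2) → 0 < δ → ∃ n, g (a n - b n) < δ)
    (u v : (X →L[ℝ] ℝ) →ₗ[ℝ] ℝ) (f : X →L[ℝ] ℝ) (f1 : ‖f‖ = 1) (uf : u f = 1)
    (h1 : ∀ g, u g + v g ≤ ‖g‖) (h2 : ∀ g, u g - v g ≤ ‖g‖) (g : X →L[ℝ] ℝ) : v g = 0 := by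
  have key : ∀ g, v g ≤ 0 := fun g => by
    by_contra hc
    push Not at hc
    have nr : ∀ (F : X →L[ℝ] ℝ) (t : ℝ), 0 < t → ∃ x, ‖x‖ ≤ 1 ∧ ‖F‖ - t * t < F x := fun F t t0 => by
      obtain ⟨x, x1, x2⟩ := F.exists_lt_apply_of_lt_opNorm (r := ‖F‖ - t * t) (by nlinarith)
      rcases le_total 0 (F x) with k | k
      · exact ⟨x, x1.le, by rwa [Real.norm_of_nonneg k] at x2⟩
      · exact ⟨-x, by simpa using x1.le, by rwa [Real.norm_of_nonpos k, ← map_neg] at x2⟩
    obtain ⟨t, t0, t1, t2⟩ : ∃ t : ℕ → ℝ, (∀ n, 0 < t n) ∧ (∀ n, t n ≤ v g / 2) ∧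
        Tendsto t atTop (𝓝 0) := ⟨fun n => v g / 2 * (1 / ((n : ℝ) + 1)), fun n => by positivity,
      fun n => mul_le_of_le_one_right (by positivity) (by
        rw [div_le_one (by positivity)]; linarith [n.cast_nonneg (α := ℝ)]),
      by simpa using tendsto_one_div_add_atTop_nhds_zero_nat.const_mul (v g / 2)⟩
    choose a a1 a2 using fun n => nr (f + t n • g) (t n) (t0 n)
    choose b b1 b2 using fun n => nr (f - t n • g) (t n) (t0 n)
    have e : ∀ n, 2 + 2 * t n * v g < f (a n + b n) + t n * g (a n - b n) + 2 * (t n * t n) :=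
      fun n => by
        have k1 := h1 (f + t n • g)
        have k2 := h2 (f - t n • g)
        have k3 := a2 n
        have k4 := b2 n
        simp only [map_add, map_sub, map_smul, smul_eq_mul, uf, _root_.add_apply, _root_.sub_apply,
          _root_.smul_apply] at k1 k2 k3 k4 ⊢
        nlinarith
    have e1 : ∀ n, f (a n + b n) ≤ ‖a n + b n‖ := fun n => by
      simpa [f1] using (le_abs_self _).trans (f.le_opNorm (a n + b n))
    have e2 : ∀ n, ‖a n + b n‖ ≤ 2 := fun n => by linarith [norm_add_le (a n) (b n), a1 n, b1 n]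
    obtain ⟨n, hn⟩ := h g a b (v g) a1 b1 (tendsto_of_tendsto_of_tendsto_of_le_of_le
      (g := fun n => 2 - t n * (‖g‖ * 2) - 2 * (t n * t n))
      (by simpa using (tendsto_const_nhds.sub (t2.mul_const (‖g‖ * 2))).sub
            ((t2.mul t2).const_mul 2)) tendsto_const_nhds (fun n => by
        have k : g (a n - b n) ≤ ‖g‖ * 2 := (le_abs_self _).trans (g.le_of_opNorm_le_of_le le_rfl
          (by linarith [norm_sub_le (a n) (b n), a1 n, b1 n]))
        have := mul_le_mul_of_nonneg_left k (t0 n).le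
        have := mul_pos (t0 n) hc
        show 2 - t n * (‖g‖ * 2) - 2 * (t n * t n) ≤ ‖a n + b n‖
        linarith [e n, e1 n]) e2) hc
    nlinarith [e n, e1 n, e2 n, t0 n, t1 n]
  have := key (-g)
  rw [map_neg] at this
  linarith [key g]

theorem wur [CompleteSpace Z] (h : Wit Z φ y c) : ∃ (X : Type) (_ : NormedAddCommGroup X)
    (_ : NormedSpace ℝ X) (_ : CompleteSpace X) (e : Z ≃L[ℝ] X), (∀ z, ‖z‖ ≤ ‖e z‖) ∧
    ∀ (g : X →L[ℝ] ℝ) (a b : ℕ → X) (δ : ℝ), (∀ n, ‖a n‖ ≤ 1) → (∀ n, ‖b n‖ ≤ 1) →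
      Tendsto (fun n => ‖a n + b n‖) atTop (𝓝 2) → 0 < δ → ∃ n, g (a n - b n) < δ := by
  obtain ⟨D, hD⟩ := nuc (U := lp (fun _ : ℕ => ℝ) 2) (fun j => ((1 : ℝ) / 2) ^ j • φ j)
    (fun j => lp.single 2 j 1) (Summable.of_nonneg_of_le (fun j => by positivity) (fun j => by
      rw [lp.norm_single (by norm_num), norm_one, mul_one, norm_smul, Real.norm_of_nonneg
        (by positivity)]
      exact mul_le_of_le_one_right (by positivity) ((φ j).opNorm_le_bound zero_le_one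
        (by simpa using h.f1 j))) summable_geometric_two)
  have D1 : ∀ j z, (1 / 2) ^ j * |φ j z| ≤ ‖D z‖ := fun j z => by
    have a := (hD z).mapL (innerSL ℝ (lp.single 2 j (1 : ℝ) : lp (fun _ : ℕ => ℝ) 2))
    have b := a.unique (hasSum_single j fun k hk => by simp [lp.inner_single_left, hk.symm])
    have d := lp.norm_apply_le_norm (by norm_num) (D z) j
    simp [lp.inner_single_left] at b
    simpa [b] using d
  obtain ⟨X, _, _, _, e, he⟩ := rng ((WithLp.prodContinuousLinearEquiv 2 ℝ Z _).symm.toContinuousLinearMap.comp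
    ((ContinuousLinearMap.id ℝ Z).prod D)) fun z => WithLp.norm_fst_le (p := 2) _ (WithLp.toLp 2 (z, D z))
  have n2 : ∀ z, ‖e z‖ ^ 2 = ‖z‖ ^ 2 + ‖D z‖ ^ 2 := fun z => by
    rw [he]; exact WithLp.prod_norm_sq_eq_of_L2 (WithLp.toLp 2 (z, D z))
  have n1 : ∀ z, ‖z‖ ≤ ‖e z‖ := fun z =>
    le_of_sq_le_sq (by rw [n2]; nlinarith) (norm_nonneg _)
  refine ⟨X, inferInstance, inferInstance, inferInstance, e, n1, fun g a b δ a1 b1 ab d0 => ?_⟩
  obtain ⟨n, hn⟩ := h.wk (g.comp e.toContinuousLinearMap) (fun n => e.symm (a n - b n)) 2 δ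
    (fun n => (n1 _).trans (by
      rw [e.apply_symm_apply]; linarith [norm_sub_le (a n) (b n), a1 n, b1 n])) (fun j => by
      have k : Tendsto (fun n => 2 ^ j * √(4 - ‖a n + b n‖ ^ 2)) atTop (𝓝 0) := by
        have := (((ab.pow 2).const_sub 4).sqrt).const_mul (2 ^ j)
        norm_num at this
        exact this
      refine squeeze_zero_norm (fun n => ?_) k
      have k1 := D1 j (e.symm (a n - b n))
      rw [one_div, inv_pow, inv_mul_le_iff₀ (by positivity)] at k1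
      refine k1.trans (mul_le_mul_of_nonneg_left (Real.le_sqrt_of_sq_le ?_) (by positivity))
      have p1 := n2 (e.symm (a n))
      have p2 := n2 (e.symm (b n))
      have p3 := n2 (e.symm (a n) + e.symm (b n))
      have p4 := parallelogram_law_with_norm ℝ (D (e.symm (a n))) (D (e.symm (b n)))
      have p5 := pow_le_pow_left₀ (norm_nonneg _) (norm_add_le (e.symm (a n)) (e.symm (b n))) 2
      have p6 := pow_le_one₀ (n := 2) (norm_nonneg _) (a1 n)
      have p7 := pow_le_one₀ (n := 2) (norm_nonneg _) (b1 n)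
      simp only [map_add, map_sub, e.apply_symm_apply] at *
      nlinarith [sq_nonneg (‖e.symm (a n)‖ - ‖e.symm (b n)‖)]) d0
  exact ⟨n, by simpa using hn⟩

theorem bid [CompleteSpace Z] (h : Wit Z φ y c) {X : Type} [NormedAddCommGroup X] [NormedSpace ℝ X]
    (f : ℕ → X →L[ℝ] ℝ) (f1 : ∀ k, ‖f k‖ ≤ 1) (f2 : ∀ x, HasSum (fun k => (c k * f k x) • y k) 0)
    (u : (X →L[ℝ] ℝ) →L[ℝ] ℝ) : HasSum (fun k => (c k * u (f k)) • y k) 0 := by
  obtain ⟨s, hs⟩ : Summable fun k => (c k * u (f k)) • y k := by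
    refine Summable.of_norm_bounded (h.cs.mul_right ‖u‖) fun k => ?_
    rw [norm_smul, norm_mul, Real.norm_of_nonneg (h.c0 k)]
    exact (mul_le_of_le_one_right (mul_nonneg (h.c0 k) (norm_nonneg _)) (h.y1 k)).trans
      (mul_le_mul_of_nonneg_left (by simpa using u.le_of_opNorm_le_of_le le_rfl (f1 k)) (h.c0 k))
  have : s = 0 := norm_le_zero_iff.1 (h.f2 s 0 fun j => by
    obtain ⟨F, hF⟩ : Summable fun k => (c k * φ j (y k)) • f k := by
      refine Summable.of_norm_bounded h.cs fun k => ?_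
      rw [norm_smul, norm_mul, Real.norm_of_nonneg (h.c0 k)]
      exact (mul_le_of_le_one_right (mul_nonneg (h.c0 k) (norm_nonneg _)) (f1 k)).trans
        (mul_le_of_le_one_right (h.c0 k) ((h.f1 j _).trans (h.y1 k)))
    have F0 : F = 0 := ContinuousLinearMap.ext fun x => by
      have a := hF.mapL (ContinuousLinearMap.apply ℝ ℝ x)
      have b := (f2 x).mapL (φ j)
      simp only [map_smul, smul_eq_mul, map_zero, ContinuousLinearMap.apply_apply] at a b
      exact a.unique (by simp only [mul_right_comm] at b; exact b)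
    have a := hF.mapL u
    have b := hs.mapL (φ j)
    simp only [map_smul, smul_eq_mul, F0, map_zero] at a b
    rw [b.unique (by simpa only [mul_right_comm] using a), abs_zero])
  exact this ▸ hs

theorem fac {W V ι : Type} [AddCommGroup W] [Module ℝ W] [AddCommGroup V] [Module ℝ V] [Fintype ι]
    (ψ : ι → W →ₗ[ℝ] ℝ) (B : W →ₗ[ℝ] V) (h : ∀ w, (∀ i, ψ i w = 0) → B w = 0) :
    ∃ x : ι → W, ∀ w, B w = ∑ i, ψ i w • B (x i) := by
  classical
  obtain ⟨r, hr⟩ := (LinearMap.pi ψ).rangeRestrict.exists_rightInverse_of_surjective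
    (LinearMap.range_rangeRestrict _)
  obtain ⟨σ, hσ⟩ := r.exists_extend
  refine ⟨fun i => σ fun j => if i = j then 1 else 0, fun w => ?_⟩
  have a : σ (LinearMap.pi ψ w) = r ⟨_, w, rfl⟩ := LinearMap.congr_fun hσ ⟨_, w, rfl⟩
  have b : LinearMap.pi ψ (r ⟨_, w, rfl⟩) = LinearMap.pi ψ w :=
    congrArg Subtype.val (LinearMap.congr_fun hr ⟨_, w, rfl⟩)
  have d := h (w - σ (LinearMap.pi ψ w)) fun i => by
    rw [a, map_sub]; exact sub_eq_zero.2 (congrFun b i).symm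
  rw [map_sub, sub_eq_zero] at d
  exact d.trans ((B ∘ₗ σ).pi_apply_eq_sum_univ _)

end Pool.Agent.H.Enflo
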