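import Pool.Agent.H.Enflo.C

namespace Pool.Agent.H.Enflo

open Filter Topology Set intervalIntegral

variable {Z : Type} [NormedAddCommGroup Z] [NormedSpace ℝ Z]

noncomputable def Av (v : Z) : C(Z, ℝ) →ₗ[ℝ] C(Z, ℝ) where
  toFun f := ⟨fun z => ∫ t in (0 : ℝ)..1, f (z + t • v),
    continuous_parametric_intervalIntegral_of_continuous' (by unfold Function.uncurry; fun_prop) _ _⟩
  map_add' f g := ContinuousMap.ext fun z => integral_add
    (Continuous.intervalIntegrable (by fun_prop) _ _) (Continuous.intervalIntegrable (by fun_prop) _ _)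
  map_smul' a f := ContinuousMap.ext fun z => integral_const_mul _ _

def Sh (w : Z) : C(Z, ℝ) →ₗ[ℝ] C(Z, ℝ) where
  toFun f := f.comp ⟨fun z => z + w, by fun_prop⟩
  map_add' _ _ := rfl
  map_smul' _ _ := rfl

theorem ib (g : ℝ → ℝ) (hg : Continuous g) (a h c b : ℝ)
    (k : ∀ t, t ∈ uIcc a (a + h) → |g t - c| ≤ b) :
    |(∫ t in a..a + h, g t) - h * c| ≤ b * |h| := by
  have := norm_integral_le_of_norm_le_const (a := a) (b := a + h) (f := fun t => g t - c) (C := b)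
    fun t ht => k t (uIoc_subset_uIcc ht)
  rw [integral_sub (hg.intervalIntegrable _ _) (continuous_const.intervalIntegrable _ _)] at this
  simpa using this

theorem Ab (v : Z) (f : C(Z, ℝ)) (z : Z) {c b : ℝ} (k : ∀ t ∈ Icc (0 : ℝ) 1, |f (z + t • v) - c| ≤ b) :
    |Av v f z - c| ≤ b := by
  have := ib (fun t => f (z + t • v)) (by fun_prop) 0 1 c b (by simpa using k)
  rw [zero_add, one_mul, abs_one, mul_one] at this
  exact this

theorem A1 (v : Z) (f : C(Z, ℝ)) {L : ℝ} (L0 : 0 ≤ L) (hf : ∀ a b, |f a - f b| ≤ L * ‖a - b‖)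
    (z : Z) (h : ℝ) :
    |Av v f (z + h • v) - Av v f z - h * (f (z + v) - f z)| ≤ 2 * L * ‖v‖ * h ^ 2 := by
  obtain ⟨g, hg⟩ : ∃ g : ℝ → ℝ, ∀ t, g t = f (z + t • v) := ⟨_, fun _ => rfl⟩
  have gc : Continuous g := by rw [funext hg]; fun_prop
  have e1 : Av v f (z + h • v) = ∫ t in h..1 + h, g t := by
    rw [← zero_add h, ← add_assoc, add_zero, ← integral_comp_add_right, zero_add]
    exact integral_congr fun t _ => by simp only [hg, add_smul]; congr 1; abel
  have e2 : Av v f z = ∫ t in (0 : ℝ)..1, g t := by rw [funext hg]; rfl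
  have k : ∀ a, |(∫ t in a..a + h, g t) - h * g a| ≤ L * (|h| * ‖v‖) * |h| := fun a =>
    ib g gc a h _ _ fun t ht => by
      rw [hg, hg]
      refine (hf _ _).trans (mul_le_mul_of_nonneg_left ?_ L0)
      rw [add_sub_add_left_eq_sub, ← sub_smul, norm_smul]
      exact mul_le_mul_of_nonneg_right (by simpa using abs_sub_left_of_mem_uIcc ht) (norm_nonneg _)
  have e3 := integral_interval_sub_interval_comm' (μ := MeasureTheory.volume)
    (gc.intervalIntegrable h (1 + h)) (gc.intervalIntegrable 0 1) (gc.intervalIntegrable h 0)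
  have k0 := abs_le.1 (k 0)
  have k1 := abs_le.1 (k 1)
  rw [zero_add, hg, zero_smul, add_zero] at k0
  rw [hg, one_smul] at k1
  have : L * (|h| * ‖v‖) * |h| = L * ‖v‖ * h ^ 2 := by rw [← sq_abs h]; ring
  rw [e1, e2, e3, abs_le]
  constructor <;> linarith [k0.1, k0.2, k1.1, k1.2]

noncomputable def Ev (x : ℕ → Z) (k : ℕ) : ℕ → C(Z, ℝ) →ₗ[ℝ] C(Z, ℝ)
  | 0 => LinearMap.id
  | N + 1 => if N = k then Ev x k N else Av (x N) ∘ₗ Ev x k N

theorem AS (v w : Z) (f : C(Z, ℝ)) : Av v (Sh w f) = Sh w (Av v f) :=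
  ContinuousMap.ext fun z => integral_congr fun t _ => congrArg f (add_right_comm _ _ _)

theorem ES (x : ℕ → Z) (k N : ℕ) (w : Z) (f : C(Z, ℝ)) : Ev x k N (Sh w f) = Sh w (Ev x k N f) := by
  induction N with
  | zero => rfl
  | succ N ih =>
    rw [Ev]
    split_ifs
    · exact ih
    · rw [LinearMap.comp_apply, ih, AS]; rfl

theorem Eb (x : ℕ → Z) (k N : ℕ) (f : C(Z, ℝ)) {c b : ℝ} : ∀ z, (∀ t : ℕ → Icc (0 : ℝ) 1,
    |f (z + ∑ i ∈ Finset.range N, (t i : ℝ) • x i) - c| ≤ b) → |Ev x k N f z - c| ≤ b := by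
  induction N with
  | zero => exact fun z h => by simpa [Ev] using h 0
  | succ N ih =>
    intro z h
    have : ∀ s ∈ Icc (0 : ℝ) 1, |Ev x k N f (z + s • x N) - c| ≤ b := fun s hs => ih _ fun t => by
      have := h (Function.update t N ⟨s, hs⟩)
      rw [Finset.sum_range_succ, Function.update_self, Finset.sum_congr rfl fun i hi => by
        rw [Function.update_of_ne (Finset.mem_range.1 hi).ne]] at this
      rwa [add_right_comm, add_assoc]
    rw [Ev]
    split_ifs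
    · simpa using this 0 ⟨le_rfl, zero_le_one⟩
    · exact Ab _ _ _ this

theorem El (x : ℕ → Z) (k N : ℕ) (f : C(Z, ℝ)) {L : ℝ} (hf : ∀ a b, |f a - f b| ≤ L * ‖a - b‖)
    (a b : Z) : |Ev x k N f a - Ev x k N f b| ≤ L * ‖a - b‖ := by
  have := Eb x k N (Sh (a - b) f - f) (c := 0) (b := L * ‖a - b‖) b fun t => by
    rw [sub_zero]
    exact (hf _ _).trans_eq (by simp)
  rw [map_sub, ES, sub_zero] at this
  simpa [Sh] using this

theorem Ee (x : ℕ → Z) {k l M : ℕ} (h1 : M ≤ k) (h2 : M ≤ l) : Ev x k M = Ev x l M := by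
  induction M with
  | zero => rfl
  | succ M ih => rw [Ev, Ev, if_neg (by omega), if_neg (by omega), ih (by omega) (by omega)]

theorem Ed (x : ℕ → Z) (g : C(Z, ℝ)) {L : ℝ} (L0 : 0 ≤ L) (hg : ∀ a b, |g a - g b| ≤ L * ‖a - b‖)
    {k N : ℕ} (h : ℝ) (M : ℕ) (h1 : k < M) : M ≤ N → ∀ z, |Ev x N M g (z + h • x k) - Ev x N M g z -
      h * Ev x k M (Sh (x k) g - g) z| ≤ 2 * L * ‖x k‖ * h ^ 2 := by
  induction M, h1 using Nat.le_induction with
  | base =>
    intro h2 z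
    rw [Ev, Ev, if_neg (by omega), if_pos rfl, map_sub, ES, Ee x (by omega : k ≤ N) le_rfl]
    exact A1 _ _ L0 (El x k k g hg) z h
  | succ M h1 ih =>
    intro h2 z
    rw [Ev, Ev, if_neg (by omega), if_neg (by omega)]
    have := Ab (x M) (Sh (h • x k) (Ev x N M g) - Ev x N M g - h • Ev x k M (Sh (x k) g - g)) z
      (c := 0) fun t _ => by rw [sub_zero]; exact ih (by omega) _
    rw [map_sub, map_sub, map_smul, AS, sub_zero] at this
    exact this

theorem gk (x : ℕ → Z) (N : ℕ) : ∃ R : ℕ → C(Z, ℝ) →ₗ[ℝ] ℝ,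
    (∀ k (g : C(Z, ℝ)) (c b : ℝ), (∀ t : ℕ → Icc (0 : ℝ) 1,
      |g (∑ i ∈ Finset.range N, (t i : ℝ) • x i + x k) -
        g (∑ i ∈ Finset.range N, (t i : ℝ) • x i) - c| ≤ b) → |R k g - c| ≤ b) ∧
    ∀ (g : C(Z, ℝ)) (L : ℝ), 0 ≤ L → (∀ a b, |g a - g b| ≤ L * ‖a - b‖) → ∀ a : ℕ → ℝ,
      |∑ k ∈ Finset.range N, a k * R k g| ≤ L * ‖∑ k ∈ Finset.range N, a k • x k‖ := by
  refine ⟨fun k => (ContinuousMap.evalCLM ℝ (0 : Z)).toLinearMap ∘ₗ Ev x k N ∘ₗ
    (Sh (x k) - LinearMap.id), fun k g c b h => Eb x k N _ 0 (by simpa [Sh] using h),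
    fun g L L0 hg a => ?_⟩
  obtain ⟨D, hD⟩ : ∃ D : ℕ → C(Z, ℝ), ∀ k, D k = Ev x k N (Sh (x k) g - g) := ⟨_, fun _ => rfl⟩
  obtain ⟨Ψ, hΨ⟩ : ∃ Ψ, Ψ = Ev x N N g := ⟨_, rfl⟩
  show |∑ k ∈ Finset.range N, a k * Ev x k N (Sh (x k) g - g) 0| ≤ _
  simp only [← hD]
  have D1 : ∀ k z, |D k z - D k 0| ≤ 2 * L * ‖z‖ := fun k z => by
    rw [hD]
    refine (El x k N _ (L := 2 * L) (fun a b => ?_) z 0).trans_eq (by rw [sub_zero])
    have k1 := abs_le.1 (hg a b)
    have k2 := abs_le.1 (hg (a + x k) (b + x k))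
    rw [add_sub_add_right_eq_sub] at k2
    show |g (a + x k) - g a - (g (b + x k) - g b)| ≤ _
    rw [abs_le]
    constructor <;> linarith [k1.1, k1.2, k2.1, k2.2]
  have key : ∀ M ≤ N, ∃ C, ∀ h : ℝ, |Ψ (h • ∑ k ∈ Finset.range M, a k • x k) - Ψ 0 -
      h * ∑ k ∈ Finset.range M, a k * D k 0| ≤ C * h ^ 2 := by
    intro M
    induction M with
    | zero => exact fun _ => ⟨0, fun h => by simp⟩
    | succ M ih =>
      intro hM
      obtain ⟨C, hC⟩ := ih (by omega)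
      refine ⟨C + 2 * L * ‖x M‖ * a M ^ 2 + |a M| * (2 * L * ‖∑ k ∈ Finset.range M, a k • x k‖),
        fun h => ?_⟩
      have k1 := Ed x g L0 hg (k := M) (h * a M) N (by omega) le_rfl
        (h • ∑ k ∈ Finset.range M, a k • x k)
      have k2 := mul_le_mul_of_nonneg_left (D1 M (h • ∑ k ∈ Finset.range M, a k • x k))
        (abs_nonneg (h * a M))
      rw [← hΨ, ← hD] at k1
      rw [← abs_mul, norm_smul, Real.norm_eq_abs, abs_mul h] at k2
      have k3 : |h| * |a M| * (2 * L * (|h| * ‖∑ k ∈ Finset.range M, a k • x k‖)) =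
          |a M| * (2 * L * ‖∑ k ∈ Finset.range M, a k • x k‖) * h ^ 2 := by
        rw [← sq_abs h]; ring
      rw [Finset.sum_range_succ, Finset.sum_range_succ, smul_add, smul_smul]
      have k4 := abs_le.1 (hC h)
      rw [k3] at k2
      rw [abs_le] at k1 k2 ⊢
      constructor <;> nlinarith [k1.1, k1.2, k2.1, k2.2, k4.1, k4.2]
  obtain ⟨C, hC⟩ := key N le_rfl
  refine le_of_forall_pos_le_add fun ε e0 => ?_
  have h0 : 0 < ε / (|C| + 1) := by positivity
  have k1 := hC (ε / (|C| + 1))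
  have k2 := El x N N g hg ((ε / (|C| + 1)) • ∑ k ∈ Finset.range N, a k • x k) 0
  rw [← hΨ, sub_zero, norm_smul, Real.norm_of_nonneg h0.le] at k2
  have k3 : C * (ε / (|C| + 1)) ≤ ε := by
    rw [← mul_div_assoc, div_le_iff₀ (by positivity)]
    nlinarith [le_abs_self C]
  generalize ε / (|C| + 1) = h at *
  refine le_of_mul_le_mul_left ?_ h0
  rw [show ∀ u : ℝ, h * |u| = |h * u| from fun u => by rw [abs_mul, abs_of_pos h0]]
  rw [abs_le] at *
  constructor <;> nlinarith [k1.1, k1.2, k2.1, k2.2]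

theorem cube [CompleteSpace Z] (x : ℕ → Z) (hx : Summable fun i => ‖x i‖) : ∃ Q : Set Z,
    IsCompact Q ∧ ∀ N (t : ℕ → Icc (0 : ℝ) 1), ∑ i ∈ Finset.range N, (t i : ℝ) • x i ∈ Q := by
  refine ⟨range fun t : ℕ → Icc (0 : ℝ) 1 => ∑' i, (t i : ℝ) • x i, isCompact_range
    (continuous_tsum (fun i => by fun_prop) hx fun i t => ?_), fun N t =>
    ⟨fun i => if i < N then t i else 0, ?_⟩⟩
  · rw [norm_smul, Real.norm_of_nonneg (t i).2.1]
    exact mul_le_of_le_one_left (norm_nonneg _) (t i).2.2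
  · dsimp only
    rw [tsum_eq_sum (s := Finset.range N) fun i hi => by
      rw [if_neg (by simpa using hi)]; simp]
    exact Finset.sum_congr rfl fun i hi => by rw [if_pos (Finset.mem_range.1 hi)]

theorem cun {V : Type} [NormedAddCommGroup V] [CompleteSpace V] (K : ℕ → Set V)
    (h : ∀ k, IsCompact (K k)) (r : ℕ → ℝ) (r0 : Tendsto r atTop (𝓝 0))
    (r1 : ∀ k, ∀ v ∈ K k, ‖v‖ ≤ r k) : IsCompact (closure (⋃ k, K k)) := by
  refine (TotallyBounded.closure ?_).isCompact_of_isClosed isClosed_closure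
  rw [Metric.totallyBounded_iff]
  intro ε e0
  obtain ⟨N, hN⟩ := eventually_atTop.1 (r0.eventually_lt_const e0)
  obtain ⟨t, t1, t2⟩ := Metric.totallyBounded_iff.1
    ((finite_Iio N).isCompact_biUnion fun k _ => h k).totallyBounded ε e0
  refine ⟨insert 0 t, t1.insert 0, iUnion_subset fun k v hv => ?_⟩
  rw [biUnion_insert]
  rcases lt_or_ge k N with a | a
  · exact Or.inr (t2 (mem_biUnion a hv))
  · exact Or.inl (mem_ball_zero_iff.2 ((r1 k v hv).trans_lt (hN k a)))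

end Pool.Agent.H.Enflo
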